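import Mathlib
import Pool.Agent.Mg.F2e8011.G7e36c2

open Pool.Agent.MP_7d676c_lc

theorem Pool.Agent.Results.MP_7d676c_lc.BPPPP.result : ∃ A ∈ PP, PosSLP ∈ BPPrel A :=
  posSLP_mem
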