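import Mathlib
import Pool.Agent.MP_7d676c_b.All

open Pool.Agent.MP_7d676c_lc Pool.Agent.MP_7d676c_b

theorem Pool.Agent.Results.MP_7d676c_lc.BitSLP.result : ∃ A ∈ PP, BitSLP ∈ BPPrel A :=
  bitSLP_mem
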