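import Mathlib
import Pool.Agent.MP_7d676c_m.Main

open Pool.Agent.MP_7d676c_lc N68a2faeb

namespace Pool.Agent.Results.MP_7d676c_lc.ManyOne

/-- The class P relative to the oracle `A`: on input `x` the machine asks `t(|x|)` adaptive
queries computed by `Q`, then `D` gives the output. -/
def Prel (A : DecisionProblem) : DecisionComplexityClass :=
  { L | ∃ (t : Polynomial ℕ) (Q : List Bool × List Bool → List Bool)
      (D : List Bool × List Bool → Bool), IsPolyTime Q ∧ IsPolyTime D ∧
      ∀ x, L x = D (x, answers A Q x (t.eval x.length)) }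

theorem result : ∀ L ∈ Prel PosSLP, ∃ f g : List Bool → List (ℕ × ℕ × ℕ),
    IsPolyTime f ∧ IsPolyTime g ∧ ∀ x, L x = PosSLP (N487b59b3.bitEncode (f x)) ∧
      Valid (f x) ∧ Valid (g x) ∧ 0 < value (g x) ∧
      |value (f x) - (if L x = true then 1 else -1) * value (g x)| * 2 ^ 2 ^ x.length ≤
        value (g x) := by
  rintro L ⟨t, Q, D, hQ, hD, h⟩
  obtain ⟨f, g, hf, hg, e⟩ := Pool.Agent.MP_7d676c_m.many_one t hQ hD
  refine ⟨f, g, hf, hg, fun x => ?_⟩
  obtain ⟨a, b, c, d⟩ := e x
  rw [← h x] at d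
  refine ⟨?_, a, b, c, d⟩
  have e2 := (mul_le_mul_of_nonneg_left (le_self_pow₀ (one_le_two (α := ℤ))
    (by positivity : 2 ^ x.length ≠ 0)) (abs_nonneg _)).trans d
  have e3 := le_abs_self (value (f x) - (if L x = true then 1 else -1) * value (g x))
  have e4 := neg_abs_le (value (f x) - (if L x = true then 1 else -1) * value (g x))
  rw [Pool.Agent.MP_7d676c_m.posSLP_code a]
  cases hx : L x
  · simp only [hx, Bool.false_eq_true, if_false] at e2 e3 e4
    exact (decide_eq_false (by linarith)).symm
  · simp only [hx, if_true] at e2 e3 e4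
    exact (decide_eq_true (by linarith)).symm

end Pool.Agent.Results.MP_7d676c_lc.ManyOne
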